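import Mathlib

set_option autoImplicit false
open scoped ENNReal MeasureTheory NNReal Topology
open MeasureTheory Set Filter

namespace Pool.Agent.H.MP_df1243_an

abbrev E2 := EuclideanSpace ℝ (Fin 2)

noncomputable def pt (x y : ℝ) : E2 := !₂[x, y]

@[simp] lemma pt0 (x y : ℝ) : pt x y 0 = x := by simp [pt]
@[simp] lemma pt1 (x y : ℝ) : pt x y 1 = y := by simp [pt]

lemma pt_eta (z : E2) : pt (z 0) (z 1) = z := by
  ext i; fin_cases i <;> simp

lemma mp_pt : MeasurePreserving (fun p : ℝ × ℝ => pt p.1 p.2) volume volume := by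
  have h1 := PiLp.volume_preserving_toLp (Fin 2)
  have h2 := (volume_preserving_finTwoArrow ℝ).symm MeasurableEquiv.finTwoArrow
  have h3 := h1.comp h2
  have : (fun p : ℝ × ℝ => pt p.1 p.2) = (@WithLp.toLp 2 (Fin 2 → ℝ)) ∘ (MeasurableEquiv.finTwoArrow (α := ℝ)).symm := by
    funext p
    ext i; fin_cases i <;> simp [MeasurableEquiv.finTwoArrow]
  rw [this]; exact h3

lemma meas_pt : Measurable (fun p : ℝ × ℝ => pt p.1 p.2) := mp_pt.measurable

lemma fub (f : E2 → ℝ≥0∞) (hf : Measurable f) : ∫⁻ z, f z = ∫⁻ x, ∫⁻ y, f (pt x y) := by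
  rw [← mp_pt.lintegral_comp hf, Measure.volume_eq_prod, lintegral_prod]
  exact (hf.comp meas_pt).aemeasurable

lemma fub' (f : E2 → ℝ≥0∞) (hf : Measurable f) : ∫⁻ z, f z = ∫⁻ y, ∫⁻ x, f (pt x y) := by
  rw [← mp_pt.lintegral_comp hf, Measure.volume_eq_prod, lintegral_prod_symm]
  exact (hf.comp meas_pt).aemeasurable

lemma isoV (x : ℝ) : Isometry (fun t => pt x t) := by
  refine Isometry.of_dist_eq fun s t => ?_
  rw [EuclideanSpace.dist_eq]
  simp [Fin.sum_univ_two]

lemma isoH (y : ℝ) : Isometry (fun t => pt t y) := by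
  refine Isometry.of_dist_eq fun s t => ?_
  rw [EuclideanSpace.dist_eq]
  simp [Fin.sum_univ_two]

lemma line_int (φ : ℝ → E2) (hφ : Isometry φ) (s : Set ℝ) (hs : MeasurableSet s) (f : E2 → ℝ≥0∞)
    (hf : Measurable f) : ∫⁻ z in φ '' s, f z ∂μH[1] = ∫⁻ t in s, f (φ t) := by
  have hm : MeasurableEmbedding φ := hφ.isClosedEmbedding.measurableEmbedding
  have h1 := hφ.map_hausdorffMeasure (d := 1) (Or.inl zero_le_one)
  rw [MeasureTheory.hausdorffMeasure_real] at h1
  have h2 : (μH[1] : Measure E2).restrict (φ '' s) = (Measure.map φ volume).restrict (φ '' s) := by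
    rw [h1, Measure.restrict_restrict (hm.measurableSet_image.2 hs),
      inter_eq_self_of_subset_left (image_subset_range _ _)]
  rw [h2, hm.restrict_map, hm.lintegral_map, preimage_image_eq _ hφ.injective]

lemma line_meas (φ : ℝ → E2) (hφ : Isometry φ) (a b : ℝ) : (μH[1] : Measure E2) (φ '' Icc a b) < ⊤ := by
  rw [hφ.hausdorffMeasure_image (Or.inl zero_le_one), MeasureTheory.hausdorffMeasure_real]
  simp

def Arc (a b : E2) (S : Set E2) : Prop := ∃ p : Path a b, Function.Injective p ∧ range p ⊆ S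

lemma Arc.mono {a b : E2} {S T : Set E2} (h : Arc a b S) (hST : S ⊆ T) : Arc a b T := by
  obtain ⟨p, h1, h2⟩ := h
  exact ⟨p, h1, h2.trans hST⟩

lemma Arc.trans {a b c : E2} {S T : Set E2} (h : Arc a b S) (h' : Arc b c T)
    (hi : ∀ z, z ∈ S → z ∈ T → z = b) : Arc a c (S ∪ T) := by
  obtain ⟨p, h1, h2⟩ := h
  obtain ⟨q, h3, h4⟩ := h'
  refine ⟨p.trans q, ?_, ?_⟩
  · intro s t hst
    rw [Path.trans_apply, Path.trans_apply] at hst
    split_ifs at hst with hs ht ht
    · have := congrArg Subtype.val (h1 hst)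
      simp only at this
      ext; linarith
    · have e1 := hi _ (h2 (mem_range_self _)) (h4 ⟨_, hst.symm⟩)
      have e2 := hst.symm.trans e1
      have e3 := congrArg Subtype.val (h3 (e2.trans q.source.symm))
      simp only [Icc.coe_zero] at e3
      exfalso; apply ht; linarith
    · have e1 := hi _ (h2 ⟨_, hst.symm⟩) (h4 (mem_range_self _))
      have e3 := congrArg Subtype.val (h3 (e1.trans q.source.symm))
      simp only [Icc.coe_zero] at e3
      exfalso; apply hs; linarith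
    · have := congrArg Subtype.val (h3 hst)
      simp only at this
      ext; linarith
  · rw [Path.trans_range]
    exact union_subset_union h2 h4

lemma arc_line (φ : ℝ → E2) (hφ : Isometry φ) (s t : ℝ) (hst : s ≠ t) :
    Arc (φ s) (φ t) (φ '' uIcc s t) := by
  refine ⟨(Path.segment s t).map hφ.continuous, ?_, ?_⟩
  · rw [Path.map_coe]
    exact hφ.injective.comp (Path.segment_injective_of_ne hst)
  · rw [Path.map_coe, range_comp, Path.range_segment, segment_eq_uIcc]

lemma arc_init (γ : C(unitInterval, E2)) (hγ : Function.Injective γ) (t : unitInterval) (ht : t ≠ 0) :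
    Arc (γ 0) (γ t) (γ '' Iic t) := by
  refine ⟨⟨⟨fun s => γ (t * s), by fun_prop⟩, by simp, by simp⟩, ?_, ?_⟩
  · intro s s' h
    have h1 : t * s = t * s' := hγ h
    have h2 := congrArg Subtype.val h1
    simp only [Icc.coe_mul] at h2
    have h3 : (t : ℝ) ≠ 0 := fun h => ht (Subtype.ext h)
    exact Subtype.ext (mul_left_cancel₀ h3 h2)
  · rintro _ ⟨s, rfl⟩
    exact ⟨t * s, unitInterval.mul_le_left, rfl⟩

def Adm (E F : Set E2) (ρ : E2 → ℝ≥0∞) : Prop :=
  ∀ γ : C(unitInterval, E2), Function.Injective γ → γ 0 ∈ E → γ 1 ∈ F →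
    μH[1] (Set.range γ) < ⊤ → 1 ≤ ∫⁻ x in Set.range γ, ρ x ∂μH[1]

lemma Adm.arc {E F : Set E2} {ρ : E2 → ℝ≥0∞} (h : Adm E F ρ) {a b : E2} {S : Set E2}
    (hA : Arc a b S) (ha : a ∈ E) (hb : b ∈ F) (hS : (μH[1] : Measure E2) S < ⊤) :
    1 ≤ ∫⁻ x in S, ρ x ∂μH[1] := by
  obtain ⟨p, h1, h2⟩ := hA
  have := h p.toContinuousMap h1 (by simpa using ha) (by simpa using hb)
    (lt_of_le_of_lt (measure_mono h2) hS)
  exact this.trans (lintegral_mono_set h2)

lemma cs (g : ℝ → ℝ≥0∞) (hg : Measurable g) (s : Set ℝ) :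
    (∫⁻ t in s, g t) ^ 2 ≤ volume s * ∫⁻ t in s, g t ^ 2 := by
  have h := ENNReal.lintegral_mul_le_Lp_mul_Lq (volume.restrict s) Real.HolderConjugate.two_two
    (f := fun _ => 1) (g := g) (by fun_prop) hg.aemeasurable
  simp only [Pi.mul_apply, one_mul, ENNReal.one_rpow, lintegral_const, Measure.restrict_apply_univ] at h
  have h2 := pow_le_pow_left' h 2
  refine h2.trans (le_of_eq ?_)
  rw [mul_pow, ← ENNReal.rpow_natCast, ← ENNReal.rpow_natCast, ← ENNReal.rpow_mul, ← ENNReal.rpow_mul]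
  norm_num

end Pool.Agent.H.MP_df1243_an
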