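import Pool.Agent.H.MP_df1243_an.A

set_option autoImplicit false
open scoped ENNReal MeasureTheory NNReal Topology
open MeasureTheory Set Filter

namespace Pool.Agent.H.MP_df1243_an

def strip (δ : ℝ) : Set E2 := {z | z 1 ∈ Icc (-δ) δ}

lemma strip_meas (δ : ℝ) : MeasurableSet (strip δ) := by
  have : Measurable (fun z : E2 => z 1) := by fun_prop
  exact this measurableSet_Icc

noncomputable def en (ρ : E2 → ℝ≥0∞) (δ : ℝ) : ℝ≥0∞ := ∫⁻ z in strip δ, ρ z ^ 2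

noncomputable def V (ρ : E2 → ℝ≥0∞) (δ : ℝ) (x : ℝ) : ℝ≥0∞ := ∫⁻ t in Icc (-δ) δ, ρ (pt x t)

lemma V_meas {ρ : E2 → ℝ≥0∞} (hρ : Measurable ρ) (δ : ℝ) : Measurable (V ρ δ) := by
  unfold V
  exact Measurable.lintegral_prod_right (f := fun x t => ρ (pt x t)) (hρ.comp meas_pt)

lemma strip_int (f : E2 → ℝ≥0∞) (hf : Measurable f) (δ : ℝ) :
    ∫⁻ z in strip δ, f z = ∫⁻ x, ∫⁻ t in Icc (-δ) δ, f (pt x t) := by
  rw [← lintegral_indicator (strip_meas δ), fub _ (hf.indicator (strip_meas δ))]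
  refine lintegral_congr fun x => ?_
  rw [← lintegral_indicator measurableSet_Icc]
  refine lintegral_congr fun t => ?_
  simp [indicator, strip]

lemma strip_int' (f : E2 → ℝ≥0∞) (hf : Measurable f) (δ : ℝ) :
    ∫⁻ z in strip δ, f z = ∫⁻ t in Icc (-δ) δ, ∫⁻ x, f (pt x t) := by
  rw [← lintegral_indicator (strip_meas δ), fub' _ (hf.indicator (strip_meas δ)),
    ← lintegral_indicator measurableSet_Icc]
  refine lintegral_congr fun t => ?_
  by_cases h : t ∈ Icc (-δ) δ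
  · rw [indicator_of_mem h]
    refine lintegral_congr fun x => ?_
    rw [indicator_of_mem]
    simpa [strip] using h
  · rw [indicator_of_notMem h]
    have : ∀ x, (strip δ).indicator f (pt x t) = 0 := fun x => by
      rw [indicator_of_notMem]
      simpa [strip] using h
    simp [this]

lemma measV {ρ : E2 → ℝ≥0∞} (hρ : Measurable ρ) (x : ℝ) : Measurable fun t => ρ (pt x t) :=
  hρ.comp (isoV x).continuous.measurable

lemma measH {ρ : E2 → ℝ≥0∞} (hρ : Measurable ρ) (y : ℝ) : Measurable fun t => ρ (pt t y) :=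
  hρ.comp (isoH y).continuous.measurable

lemma V_sq {ρ : E2 → ℝ≥0∞} (hρ : Measurable ρ) (δ : ℝ) :
    ∫⁻ x, V ρ δ x ^ 2 ≤ ENNReal.ofReal (2 * δ) * en ρ δ := by
  unfold en
  rw [strip_int _ (hρ.pow_const 2), ← lintegral_const_mul' _ _ ENNReal.ofReal_ne_top]
  refine lintegral_mono fun x => ?_
  have := cs _ (measV hρ x) (Icc (-δ) δ)
  rw [Real.volume_Icc, show δ - -δ = 2 * δ by ring] at this
  exact this

lemma q4 : (1 / 4 : ℝ≥0∞) = ENNReal.ofReal (1 / 4) := by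
  rw [ENNReal.ofReal_div_of_pos (by norm_num)]; simp

lemma bad {ρ : E2 → ℝ≥0∞} (hρ : Measurable ρ) {δ : ℝ} (hδ : 0 < δ)
    (he : en ρ δ ≤ ENNReal.ofReal (1 / 64)) (a : ℝ) :
    ∃ x, a ≤ x ∧ x ≤ a + δ ∧ V ρ δ x < 1 / 4 := by
  by_contra hc
  push Not at hc
  have h1 : ∫⁻ x in Icc a (a + δ), (1 / 4 : ℝ≥0∞) ^ 2 ≤ ∫⁻ x, V ρ δ x ^ 2 := by
    refine le_trans ?_ (setLIntegral_le_lintegral (Icc a (a + δ)) _)
    refine setLIntegral_mono' measurableSet_Icc fun x hx => ?_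
    exact pow_le_pow_left' (hc x hx.1 hx.2) 2
  have h2 := h1.trans ((V_sq hρ δ).trans (mul_le_mul_right he _))
  rw [lintegral_const, Measure.restrict_apply_univ, Real.volume_Icc, q4, ← ENNReal.ofReal_pow (by norm_num),
    ← ENNReal.ofReal_mul (by norm_num), ← ENNReal.ofReal_mul (by positivity),
    ENNReal.ofReal_le_ofReal_iff (by positivity)] at h2
  linarith

lemma horiz {ρ : E2 → ℝ≥0∞} (hρ : Measurable ρ) {δ : ℝ} (hδ : 0 < δ)
    (he : en ρ δ ≤ ENNReal.ofReal (1 / 64)) :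
    ∃ y, 0 < y ∧ y ≤ δ ∧ ∀ a b, b ≤ a + 2 * δ → ∫⁻ t in Icc a b, ρ (pt t y) ≤ 1 / 4 := by
  have : ∃ y, 0 < y ∧ y ≤ δ ∧ ∫⁻ t, ρ (pt t y) ^ 2 ≤ ENNReal.ofReal (1 / (32 * δ)) := by
    by_contra hc
    push Not at hc
    have h1 : ∫⁻ y in Ioc 0 δ, ENNReal.ofReal (1 / (32 * δ)) ≤ en ρ δ := by
      unfold en
      rw [strip_int' _ (hρ.pow_const 2)]
      refine le_trans ?_ (lintegral_mono_set (s := Ioc 0 δ) fun y hy => ⟨by linarith [hy.1], hy.2⟩)
      exact setLIntegral_mono' measurableSet_Ioc fun y hy => (hc y hy.1 hy.2).le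
    have h2 := h1.trans he
    rw [lintegral_const, Measure.restrict_apply_univ, Real.volume_Ioc,
      ← ENNReal.ofReal_mul (by positivity), ENNReal.ofReal_le_ofReal_iff (by positivity)] at h2
    have h3 : 1 / (32 * δ) * (δ - 0) = 1 / 32 := by field_simp; ring
    rw [h3] at h2
    norm_num at h2
  obtain ⟨y, h0, h1, h2⟩ := this
  refine ⟨y, h0, h1, fun a b hab => ?_⟩
  have h3 := cs _ (measH hρ y) (Icc a b)
  have h4 : volume (Icc a b) * ∫⁻ t in Icc a b, ρ (pt t y) ^ 2 ≤ (1 / 4 : ℝ≥0∞) ^ 2 := by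
    calc _ ≤ ENNReal.ofReal (2 * δ) * ENNReal.ofReal (1 / (32 * δ)) := by
          refine mul_le_mul' ?_ ((setLIntegral_le_lintegral _ _).trans h2)
          rw [Real.volume_Icc]
          exact ENNReal.ofReal_le_ofReal (by linarith)
      _ = _ := by
          rw [q4, ← ENNReal.ofReal_pow (by norm_num), ← ENNReal.ofReal_mul (by positivity)]
          congr 1
          field_simp; ring
  exact (ENNReal.pow_le_pow_left_iff two_ne_zero).1 (h3.trans h4)

lemma vert_le {ρ : E2 → ℝ≥0∞} (hρ : Measurable ρ) {δ : ℝ} (x s t : ℝ) (hs : s ∈ Icc (-δ) δ)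
    (ht : t ∈ Icc (-δ) δ) : ∫⁻ z in (fun u => pt x u) '' uIcc s t, ρ z ∂μH[1] ≤ V ρ δ x := by
  rw [line_int _ (isoV x) _ measurableSet_uIcc _ hρ]
  exact lintegral_mono_set (uIcc_subset_Icc hs ht)

lemma E_bad {E : Set E2} (hE : E ⊆ {x | x 1 = 0 ∧ 0 ≤ x 0 ∧ x 0 ≤ 1}) {ρ : E2 → ℝ≥0∞}
    (hρ : Measurable ρ) (hA : Adm E ({x | x 1 = 0} \ E) ρ) {δ : ℝ} (hδ : 0 < δ)
    (he : en ρ δ ≤ ENNReal.ofReal (1 / 64)) (x : ℝ) (hx : pt x 0 ∈ E) : 1 / 4 ≤ V ρ δ x := by
  obtain ⟨y, hy0, hy1, hy⟩ := horiz hρ hδ he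
  have step : ∀ x, pt x 0 ∈ E → V ρ δ x < 1 / 4 → ∃ x', x + δ ≤ x' ∧ pt x' 0 ∈ E ∧ V ρ δ x' < 1 / 4 := by
    intro x hx hV
    obtain ⟨x', h1, h2, h3⟩ := bad hρ hδ he (x + δ)
    refine ⟨x', h1, ?_, h3⟩
    by_contra hn
    have hxx : x < x' := by linarith
    have a1 := arc_line _ (isoV x) 0 y hy0.ne
    have a2 := arc_line _ (isoH y) x x' hxx.ne
    have a3 := arc_line _ (isoV x') y 0 hy0.ne'
    have a4 := a1.trans a2 (by
      rintro _ ⟨s, -, rfl⟩ ⟨t, -, h⟩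
      have := congrArg (fun z : E2 => z 1) h
      simp only [pt1] at this
      rw [this])
    have a5 := a4.trans a3 (by
      rintro z hz ⟨t, -, rfl⟩
      rcases hz with ⟨s, -, h⟩ | ⟨s, -, h⟩
      · have := congrArg (fun z : E2 => z 0) h
        simp only [pt0] at this
        exact absurd this hxx.ne
      · have := congrArg (fun z : E2 => z 1) h
        simp only [pt1] at this
        rw [this])
    have hfin : (μH[1] : Measure E2) (((fun t => pt x t) '' uIcc 0 y ∪ (fun t => pt t y) '' uIcc x x') ∪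
        (fun t => pt x' t) '' uIcc y 0) < ⊤ :=
      measure_union_lt_top (measure_union_lt_top (line_meas _ (isoV x) _ _) (line_meas _ (isoH y) _ _))
        (line_meas _ (isoV x') _ _)
    have h5 := hA.arc a5 hx ⟨by simp, hn⟩ hfin
    have m0 : (0 : ℝ) ∈ Icc (-δ) δ := ⟨by linarith, hδ.le⟩
    have my : y ∈ Icc (-δ) δ := ⟨by linarith, hy1⟩
    have b1 := (vert_le hρ x 0 y m0 my).trans hV.le
    have b3 := (vert_le hρ x' y 0 my m0).trans h3.le
    have b2 : ∫⁻ z in (fun t => pt t y) '' uIcc x x', ρ z ∂μH[1] ≤ 1 / 4 := by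
      rw [line_int _ (isoH y) _ measurableSet_uIcc _ hρ, uIcc_of_le hxx.le]
      exact hy x x' (by linarith)
    have h6 := h5.trans ((lintegral_union_le _ _ _).trans
      (add_le_add ((lintegral_union_le _ _ _).trans (add_le_add b1 b2)) b3))
    rw [q4, ← ENNReal.ofReal_add (by norm_num) (by norm_num), ← ENNReal.ofReal_add (by norm_num) (by norm_num),
      ← ENNReal.ofReal_one, ENNReal.ofReal_le_ofReal_iff (by norm_num)] at h6
    norm_num at h6
  by_contra hc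
  push Not at hc
  have all : ∀ n : ℕ, ∃ x', x + n * δ ≤ x' ∧ pt x' 0 ∈ E ∧ V ρ δ x' < 1 / 4 := by
    intro n
    induction n with
    | zero => exact ⟨x, by simp, hx, hc⟩
    | succ n ih =>
      obtain ⟨x1, h1, h2, h3⟩ := ih
      obtain ⟨x2, h4, h5, h6⟩ := step x1 h2 h3
      exact ⟨x2, by push_cast; linarith, h5, h6⟩
  obtain ⟨n, hn⟩ := exists_nat_gt ((1 - x) / δ)
  obtain ⟨x', h1, h2, -⟩ := all n
  have h3 := (hE h2).2.2
  rw [pt0] at h3
  rw [div_lt_iff₀ hδ] at hn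
  linarith

end Pool.Agent.H.MP_df1243_an
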