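import Pool.Agent.H.MP_df1243_an.B

set_option autoImplicit false
open scoped ENNReal MeasureTheory NNReal Topology
open MeasureTheory Set Filter

namespace Pool.Agent.H.MP_df1243_an

noncomputable def rd (ρ : E2 → ℝ≥0∞) (δ : ℝ) : E2 → ℝ≥0∞ :=
  (strip δ).indicator fun z => 4 * (ρ z + V ρ δ (z 0) * ENNReal.ofReal (1 / δ))

lemma rd_aux {ρ : E2 → ℝ≥0∞} (hρ : Measurable ρ) (δ : ℝ) : Measurable fun z : E2 => V ρ δ (z 0) :=
  (V_meas hρ δ).comp (by fun_prop)

lemma rd_meas {ρ : E2 → ℝ≥0∞} (hρ : Measurable ρ) (δ : ℝ) : Measurable (rd ρ δ) := by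
  unfold rd
  refine Measurable.indicator ?_ (strip_meas δ)
  exact ((hρ.add ((rd_aux hρ δ).mul_const _)).const_mul _)

lemma first {P : Set unitInterval} (hP : IsClosed P) {t : unitInterval} (ht : t ∈ P) :
    ∃ s ∈ P, ∀ u ∈ P, s ≤ u := by
  obtain ⟨s, hs, h⟩ := hP.isCompact.exists_isLeast ⟨t, ht⟩
  exact ⟨s, hs, fun u hu => h hu⟩

lemma adm2 {E : Set E2} (hE : E ⊆ {x | x 1 = 0 ∧ 0 ≤ x 0 ∧ x 0 ≤ 1}) {ρ : E2 → ℝ≥0∞}
    (hρ : Measurable ρ) (hA : Adm E ({x | x 1 = 0} \ E) ρ) {δ : ℝ} (hδ : 0 < δ) (hδ1 : δ ≤ 1)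
    (he : en ρ δ ≤ ENNReal.ofReal (1 / 64)) : Adm E (Metric.sphere 0 2) (rd ρ δ) := by
  intro γ hγ h0 h1 hfin
  obtain ⟨e1, e2, e3⟩ := hE h0
  have hn : ‖γ 0‖ ≤ 1 := by
    rw [EuclideanSpace.norm_eq, Real.sqrt_le_one]
    simp only [Fin.sum_univ_two, Real.norm_eq_abs, sq_abs, e1]
    nlinarith
  set f : unitInterval → ℝ := fun t => dist (γ t) (γ 0) with hf
  have hfc : Continuous f := by fun_prop
  have f0 : f 0 = 0 := by simp [hf]
  have f1 : δ ≤ f 1 := by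
    have h2 : ‖γ 1‖ = 2 := by simpa using h1
    have h3 := norm_sub_norm_le (γ 1) (γ 0)
    simp only [hf, dist_eq_norm]
    linarith
  have ivt : ∀ t, Icc 0 (f t) ⊆ f '' Icc 0 t := fun t => by
    have := intermediate_value_Icc (a := 0) (b := t) (f := f) unitInterval.nonneg' hfc.continuousOn
    rwa [f0] at this
  obtain ⟨t0, -, ht0⟩ := ivt 1 ⟨hδ.le, f1⟩
  obtain ⟨T, hT, hmin⟩ := first (P := {t | f t = δ}) (isClosed_eq hfc continuous_const) ht0
  have hT' : f T = δ := hT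
  have hle : ∀ t ≤ T, f t ≤ δ := by
    intro t ht
    by_contra hc
    push Not at hc
    obtain ⟨s, hs, hs'⟩ := ivt t ⟨hδ.le, hc.le⟩
    have : t = T := le_antisymm ht ((hmin s hs').trans hs.2)
    rw [this, hT'] at hc
    exact lt_irrefl _ hc
  have hstrip : ∀ t ≤ T, γ t 1 ∈ Icc (-δ) δ := by
    intro t ht
    have h2 := hle t ht
    have h3 : dist (γ t 1) (γ 0 1) ≤ dist (γ t) (γ 0) := PiLp.dist_apply_le _ _ _
    rw [e1, Real.dist_eq, sub_zero] at h3
    exact abs_le.1 (h3.trans h2)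
  have hK : MeasurableSet (γ '' Iic T) :=
    (isClosed_Iic.isCompact.image γ.continuous).measurableSet
  have hKm : ENNReal.ofReal δ ≤ (μH[1] : Measure E2) (γ '' Iic T) := by
    have h2 := (LipschitzWith.dist_left (γ 0)).hausdorffMeasure_image_le (d := 1) zero_le_one (γ '' Iic T)
    simp only [ENNReal.coe_one, ENNReal.one_rpow, one_mul, MeasureTheory.hausdorffMeasure_real] at h2
    refine le_trans ?_ h2
    have h3 : Icc 0 δ ⊆ (fun x => dist x (γ 0)) '' (γ '' Iic T) := by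
      intro r hr
      obtain ⟨s, hs, hs'⟩ := ivt T (by rwa [hT'])
      exact ⟨γ s, ⟨s, hs.2, rfl⟩, hs'⟩
    refine le_trans ?_ (measure_mono h3)
    simp
  have hrd : ∀ z ∈ γ '' Iic T, rd ρ δ z = 4 * (ρ z + V ρ δ (z 0) * ENNReal.ofReal (1 / δ)) := by
    rintro _ ⟨t, ht, rfl⟩
    unfold rd
    rw [indicator_of_mem]
    exact hstrip t ht
  refine le_trans ?_ (lintegral_mono_set (image_subset_range γ (Iic T)))
  have h44 : (4 : ℝ≥0∞) * (1 / 4) = 1 := by
    rw [one_div, ENNReal.mul_inv_cancel] <;> norm_num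
  by_cases hc : ∀ t ≤ T, 1 / 4 ≤ V ρ δ (γ t 0)
  · have h2 : ∫⁻ z in γ '' Iic T, ENNReal.ofReal (1 / δ) ∂μH[1] ≤ ∫⁻ z in γ '' Iic T, rd ρ δ z ∂μH[1] := by
      refine setLIntegral_mono' hK fun z hz => ?_
      rw [hrd z hz]
      obtain ⟨t, ht, rfl⟩ := hz
      calc ENNReal.ofReal (1 / δ) = 4 * (1 / 4 * ENNReal.ofReal (1 / δ)) := by
            rw [← mul_assoc, h44, one_mul]
        _ ≤ _ := by
            gcongr
            exact le_add_left (mul_le_mul_left (hc t ht) _)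
    refine le_trans ?_ h2
    rw [lintegral_const, Measure.restrict_apply_univ]
    refine le_trans ?_ (mul_le_mul_right hKm _)
    rw [← ENNReal.ofReal_mul (by positivity), one_div, inv_mul_cancel₀ hδ.ne', ENNReal.ofReal_one]
  · push Not at hc
    obtain ⟨t2, ht2, hV⟩ := hc
    set x0 := γ t2 0 with hx0
    have hnE : pt x0 0 ∉ E := fun h => absurd (E_bad hE hρ hA hδ he x0 h) (not_le.2 hV)
    obtain ⟨t1, ht1, hmin1⟩ := first (P := {t | γ t 0 = x0}) (t := t2)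
      (isClosed_eq (by fun_prop) continuous_const) rfl
    have ht1' : γ t1 0 = x0 := ht1
    have hT1 : t1 ≤ T := (hmin1 t2 rfl).trans ht2
    have hne : t1 ≠ 0 := by
      rintro rfl
      apply hnE
      rw [← ht1', ← e1, pt_eta]
      exact h0
    have a1 := arc_init γ hγ t1 hne
    have hp : γ t1 = pt x0 (γ t1 1) := by rw [← ht1', pt_eta]
    have a2 : Arc (γ 0) (pt x0 0) (γ '' Iic t1 ∪ (fun u => pt x0 u) '' uIcc (γ t1 1) 0) := by
      by_cases hy : γ t1 1 = 0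
      · rw [hy] at hp
        rw [← hp]
        exact a1.mono subset_union_left
      · have a3 := arc_line _ (isoV x0) _ 0 hy
        rw [← hp] at a3
        refine a1.trans a3 ?_
        rintro _ ⟨s, hs, rfl⟩ ⟨u, -, hu⟩
        have h3 : γ s 0 = x0 := by rw [← hu]; simp
        rw [le_antisymm hs (hmin1 s h3)]
    have hfin' : (μH[1] : Measure E2) (γ '' Iic t1 ∪ (fun u => pt x0 u) '' uIcc (γ t1 1) 0) < ⊤ :=
      measure_union_lt_top (lt_of_le_of_lt (measure_mono (image_subset_range _ _)) hfin)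
        (line_meas _ (isoV x0) _ _)
    have h5 := hA.arc a2 h0 ⟨by simp, hnE⟩ hfin'
    have b3 := (vert_le hρ x0 _ 0 (hstrip t1 hT1) ⟨by linarith, hδ.le⟩).trans hV.le
    have h6 := h5.trans ((lintegral_union_le _ _ _).trans (add_le_add le_rfl b3))
    have h7 : 1 / 4 ≤ ∫⁻ z in γ '' Iic t1, ρ z ∂μH[1] := by
      by_contra hc
      push Not at hc
      have h8 := h6.trans (add_le_add hc.le le_rfl)
      rw [q4, ← ENNReal.ofReal_add (by norm_num) (by norm_num),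
        ← ENNReal.ofReal_one, ENNReal.ofReal_le_ofReal_iff (by norm_num)] at h8
      norm_num at h8
    have h8 : 1 / 4 ≤ ∫⁻ z in γ '' Iic T, ρ z ∂μH[1] :=
      h7.trans (lintegral_mono_set (image_mono (Iic_subset_Iic.2 hT1)))
    calc (1 : ℝ≥0∞) = 4 * (1 / 4) := h44.symm
      _ ≤ 4 * ∫⁻ z in γ '' Iic T, ρ z ∂μH[1] := mul_le_mul_right h8 _
      _ = ∫⁻ z in γ '' Iic T, 4 * ρ z ∂μH[1] := (lintegral_const_mul _ hρ).symm
      _ ≤ _ := by
          refine setLIntegral_mono' hK fun z hz => ?_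
          rw [hrd z hz]
          gcongr
          exact le_self_add

lemma sq_add (a b : ℝ≥0∞) : (a + b) ^ 2 ≤ 2 * (a ^ 2 + b ^ 2) := by
  have := ENNReal.add_rpow_le_rpow_add (p := 1) a b le_rfl
  have h := ENNReal.rpow_add_le_mul_rpow_add_rpow a b (p := 2) (by norm_num)
  norm_num at h
  exact h

lemma energy {ρ : E2 → ℝ≥0∞} (hρ : Measurable ρ) {δ : ℝ} (hδ : 0 < δ) :
    ∫⁻ z, rd ρ δ z ^ 2 ≤ 160 * en ρ δ := by
  have h1 : ∫⁻ z, rd ρ δ z ^ 2 ≤
      ∫⁻ z in strip δ, 32 * (ρ z ^ 2 + V ρ δ (z 0) ^ 2 * ENNReal.ofReal (1 / δ) ^ 2) := by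
    rw [← lintegral_indicator (strip_meas δ)]
    refine lintegral_mono fun z => ?_
    unfold rd
    by_cases h : z ∈ strip δ
    · rw [indicator_of_mem h, indicator_of_mem h, mul_pow, ← mul_pow]
      calc (4 * (ρ z + V ρ δ (z 0) * ENNReal.ofReal (1 / δ))) ^ 2
          = 16 * (ρ z + V ρ δ (z 0) * ENNReal.ofReal (1 / δ)) ^ 2 := by rw [mul_pow]; norm_num
        _ ≤ 16 * (2 * (ρ z ^ 2 + (V ρ δ (z 0) * ENNReal.ofReal (1 / δ)) ^ 2)) :=
            mul_le_mul_right (sq_add _ _) _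
        _ = _ := by rw [mul_pow, ← mul_assoc]; norm_num
    · simp [indicator_of_notMem h]
  have m1 : Measurable fun z : E2 => V ρ δ (z 0) ^ 2 := (rd_aux hρ δ).pow_const 2
  rw [lintegral_const_mul' _ _ (by norm_num),
    lintegral_add_left (hρ.pow_const 2), lintegral_mul_const _ m1] at h1
  have h2 : ∫⁻ z in strip δ, V ρ δ (z 0) ^ 2 ≤
      ENNReal.ofReal (2 * δ) * (ENNReal.ofReal (2 * δ) * en ρ δ) := by
    rw [strip_int _ m1]
    simp only [pt0, lintegral_const, Measure.restrict_apply_univ, Real.volume_Icc]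
    rw [lintegral_mul_const _ ((V_meas hρ δ).pow_const 2), mul_comm, show δ - -δ = 2 * δ by ring]
    exact mul_le_mul_right (V_sq hρ δ) _
  have h3 : ENNReal.ofReal (2 * δ) * (ENNReal.ofReal (2 * δ) * en ρ δ) * ENNReal.ofReal (1 / δ) ^ 2
      = 4 * en ρ δ := by
    have : ENNReal.ofReal (2 * δ) * ENNReal.ofReal (1 / δ) = 2 := by
      rw [← ENNReal.ofReal_mul (by positivity), show 2 * δ * (1 / δ) = 2 by field_simp]
      simp
    calc _ = (ENNReal.ofReal (2 * δ) * ENNReal.ofReal (1 / δ)) ^ 2 * en ρ δ := by ring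
      _ = _ := by rw [this]; norm_num
  refine h1.trans ?_
  calc _ ≤ 32 * (en ρ δ + 4 * en ρ δ) := by
        rw [← h3]
        gcongr
        exact le_rfl
    _ = _ := by ring

lemma en_lim {ρ : E2 → ℝ≥0∞} (hρ : Measurable ρ) (hf : ∫⁻ z, ρ z ^ 2 ≠ ⊤) :
    Tendsto (fun n : ℕ => en ρ (1 / ((n : ℝ) + 1))) atTop (𝓝 0) := by
  set ν : Measure E2 := volume.withDensity fun z => ρ z ^ 2 with hν
  have h1 : ∀ δ, en ρ δ = ν (strip δ) := fun δ => by
    rw [hν, withDensity_apply _ (strip_meas δ)]; rfl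
  have hfin : ν univ ≠ ⊤ := by
    rw [hν, withDensity_apply _ MeasurableSet.univ, Measure.restrict_univ]; exact hf
  have h2 := tendsto_measure_iInter_atTop (μ := ν) (s := fun n : ℕ => strip (1 / ((n : ℝ) + 1)))
    (fun n => (strip_meas _).nullMeasurableSet)
    (fun m n hmn z hz => by
      have h : 1 / ((n : ℝ) + 1) ≤ 1 / ((m : ℝ) + 1) := Nat.one_div_le_one_div hmn
      exact ⟨by linarith [hz.1], by linarith [hz.2]⟩)
    ⟨0, ne_top_of_le_ne_top hfin (measure_mono (subset_univ _))⟩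
  have h3 : ν (⋂ n : ℕ, strip (1 / ((n : ℝ) + 1))) = 0 := by
    refine measure_mono_null (t := strip 0) ?_ ?_
    · intro z hz
      rw [mem_iInter] at hz
      have h : |z 1| ≤ 0 := by
        by_contra hc
        push Not at hc
        obtain ⟨n, hn⟩ := exists_nat_one_div_lt hc
        exact absurd (abs_le.2 (hz n)) (not_le.2 hn)
      exact abs_le.1 h
    · rw [← h1]
      unfold en
      rw [strip_int' _ (hρ.pow_const 2)]
      simp
  rw [h3] at h2
  simp only [h1]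
  exact h2

theorem main {E : Set E2} (hE : E ⊆ {x | x 1 = 0 ∧ 0 ≤ x 0 ∧ x 0 ≤ 1})
    (hpos : 0 < ⨅ (ρ : E2 → ℝ≥0∞) (_ : Measurable ρ) (_ : Adm E (Metric.sphere 0 2) ρ), ∫⁻ x, ρ x ^ 2) :
    (⨅ (ρ : E2 → ℝ≥0∞) (_ : Measurable ρ) (_ : Adm E ({x | x 1 = 0} \ E) ρ), ∫⁻ x, ρ x ^ 2) = ⊤ := by
  simp only [iInf_eq_top]
  intro ρ hρ hA
  by_contra hf
  have h1 := en_lim hρ hf
  have h2 := ENNReal.Tendsto.const_mul (a := 160) h1 (Or.inr (by norm_num))
  rw [mul_zero] at h2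
  have h3 := h2.eventually (gt_mem_nhds hpos)
  have h4 := h1.eventually (gt_mem_nhds (ENNReal.ofReal_pos.2 (show (0 : ℝ) < 1 / 64 by norm_num)))
  obtain ⟨n, h5, h6⟩ := (h3.and h4).exists
  have hδ : (0 : ℝ) < 1 / ((n : ℝ) + 1) := by positivity
  have hδ1 : 1 / ((n : ℝ) + 1) ≤ 1 := by
    rw [div_le_one (by positivity)]
    linarith [n.cast_nonneg (α := ℝ)]
  refine absurd h5 (not_lt.2 ?_)
  refine le_trans ?_ (energy hρ hδ)
  exact iInf_le_of_le _ (iInf_le_of_le (rd_meas hρ _) (iInf_le_of_le (adm2 hE hρ hA hδ hδ1 h6.le) le_rfl))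

end Pool.Agent.H.MP_df1243_an
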